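import Pool.Agent.Helper89.Vol5.Goals

/-! # MP_cd13d2_co : packet V58-CAN (canonical patterns) -/

set_option autoImplicit false

namespace Pool.Agent.Helper26.Vol5.PkCAN

open Pool.Agent.Helper89.Vol5

/-- the ordering property of a permutation and signs -/
def Pp (D : Fin 8 → Fin 8 → ℝ) (σ : Equiv.Perm (Fin 8)) (s : Fin 8 → ℝ) : Prop :=
  (∀ i, s i = 1 ∨ s i = -1) ∧ ∀ i j, i < j → 0 < s i * s j * D (σ i) (σ j)

/-- the rotated signs -/
def rs (s : Fin 8 → ℝ) : Fin 8 → ℝ := ![s 1, s 2, s 3, s 4, s 5, s 6, s 7, -s 0]

/-- the rotated permutation -/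
def rp (σ : Equiv.Perm (Fin 8)) : Equiv.Perm (Fin 8) := (finRotate 8).trans σ

lemma rot {D : Fin 8 → Fin 8 → ℝ} (hD : ∀ i j, D i j = -D j i) {σ : Equiv.Perm (Fin 8)}
    {s : Fin 8 → ℝ} (h : Pp D σ s) : Pp D (rp σ) (rs s) := by
  obtain ⟨h1, h2⟩ := h
  refine ⟨?_, ?_⟩
  · intro i
    fin_cases i
    · exact h1 1
    · exact h1 2
    · exact h1 3
    · exact h1 4
    · exact h1 5
    · exact h1 6
    · exact h1 7
    · rcases h1 0 with h | h
      · right
        change -s 0 = -1
        rw [h]
      · left
        change -s 0 = 1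
        rw [h]
        norm_num
  · have e : ∀ i : Fin 8, 0 < i → 0 < s i * -s 0 * D (σ i) (σ 0) := by
      intro i hi
      have := h2 0 i hi
      rw [hD (σ i) (σ 0)]
      nlinarith
    intro i j hij
    fin_cases i <;> fin_cases j <;> first
      | exact absurd hij (by decide)
      | exact h2 1 2 (by decide)
      | exact h2 1 3 (by decide)
      | exact h2 1 4 (by decide)
      | exact h2 1 5 (by decide)
      | exact h2 1 6 (by decide)
      | exact h2 1 7 (by decide)
      | exact h2 2 3 (by decide)
      | exact h2 2 4 (by decide)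
      | exact h2 2 5 (by decide)
      | exact h2 2 6 (by decide)
      | exact h2 2 7 (by decide)
      | exact h2 3 4 (by decide)
      | exact h2 3 5 (by decide)
      | exact h2 3 6 (by decide)
      | exact h2 3 7 (by decide)
      | exact h2 4 5 (by decide)
      | exact h2 4 6 (by decide)
      | exact h2 4 7 (by decide)
      | exact h2 5 6 (by decide)
      | exact h2 5 7 (by decide)
      | exact h2 6 7 (by decide)
      | exact e 1 (by decide)
      | exact e 2 (by decide)
      | exact e 3 (by decide)
      | exact e 4 (by decide)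
      | exact e 5 (by decide)
      | exact e 6 (by decide)
      | exact e 7 (by decide)

/-- the real sign vector of a Boolean vector -/
def sv (b : Fin 8 → Bool) : Fin 8 → ℝ := fun i => if b i = true then 1 else -1

/-- the rotated Boolean vector -/
def rb (b : Fin 8 → Bool) : Fin 8 → Bool := ![b 1, b 2, b 3, b 4, b 5, b 6, b 7, !b 0]

/-- the Boolean version of `PLa` -/
def PBa : List (Fin 8 → Bool) :=
  [![true, true, true, true, true, true, true, true],
   ![true, true, true, true, true, true, false, true],
   ![true, true, true, true, true, false, false, true],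
   ![true, true, true, true, true, false, true, true],
   ![true, true, true, true, false, false, false, true],
   ![true, true, true, true, false, true, true, true],
   ![true, true, true, true, false, false, true, true],
   ![true, true, true, false, false, false, true, true]]

/-- the Boolean version of `PLb` -/
def PBb : List (Fin 8 → Bool) :=
  [![true, true, false, false, true, true, false, true],
   ![true, true, true, true, false, true, false, true],
   ![true, true, true, false, false, true, false, true],
   ![true, true, true, false, true, true, false, true],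
   ![true, true, true, false, true, false, false, true],
   ![true, true, true, false, true, false, true, true],
   ![true, true, false, false, true, false, false, true],
   ![true, true, false, true, false, true, false, true]]

lemma rs_sv (b : Fin 8 → Bool) : rs (sv b) = sv (rb b) := by
  funext i
  fin_cases i
  · rfl
  · rfl
  · rfl
  · rfl
  · rfl
  · rfl
  · rfl
  · change -(if b 0 = true then (1 : ℝ) else -1) = if (!b 0) = true then (1 : ℝ) else -1
    cases b 0 <;> simp

lemma sv_mem_a {b : Fin 8 → Bool} (h : b ∈ PBa) : sv b ∈ PLa := by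
  have e : PLa = PBa.map sv := by
    simp only [PLa, PBa, List.map_cons, List.map_nil, List.cons.injEq, and_true]
    refine ⟨?_, ?_, ?_, ?_, ?_, ?_, ?_, ?_⟩ <;>
    · funext i
      fin_cases i <;> simp [sv]
  rw [e]
  exact List.mem_map_of_mem h

lemma sv_mem_b {b : Fin 8 → Bool} (h : b ∈ PBb) : sv b ∈ PLb := by
  have e : PLb = PBb.map sv := by
    simp only [PLb, PBb, List.map_cons, List.map_nil, List.cons.injEq, and_true]
    refine ⟨?_, ?_, ?_, ?_, ?_, ?_, ?_, ?_⟩ <;>
    · funext i
      fin_cases i <;> simp [sv]
  rw [e]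
  exact List.mem_map_of_mem h

set_option maxRecDepth 100000 in
lemma dec : ∀ b : Fin 8 → Bool, ∃ k : Fin 16, rb^[(k : ℕ)] b ∈ PBa ∨ rb^[(k : ℕ)] b ∈ PBb := by
  decide +kernel

lemma iter {D : Fin 8 → Fin 8 → ℝ} (hD : ∀ i j, D i j = -D j i) (n : ℕ) :
    ∀ (σ : Equiv.Perm (Fin 8)) (b : Fin 8 → Bool), Pp D σ (sv b) →
      ∃ σ', Pp D σ' (sv (rb^[n] b)) := by
  induction n with
  | zero => exact fun σ b h => ⟨σ, h⟩
  | succ n ih =>
    intro σ b h
    have h' := rot hD h
    rw [rs_sv] at h'
    exact ih _ _ h'

/-- Packet V58-CAN. -/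
theorem thm (h : G_SRT) : G_CAN := by
  intro D hD h0 hP
  obtain ⟨σ, s, hs, hp⟩ := h D hD h0 hP
  have hb : s = sv (fun i => decide (s i = 1)) := by
    funext i
    rcases hs i with h | h
    · simp [sv, h]
    · simp only [sv, h]
      norm_num
  obtain ⟨k, hk⟩ := dec (fun i => decide (s i = 1))
  have h1 : Pp D σ (sv (fun i => decide (s i = 1))) := by
    rw [← hb]
    exact ⟨hs, hp⟩
  obtain ⟨σ', h2⟩ := iter hD k σ _ h1
  exact ⟨σ', _, hk.imp sv_mem_a sv_mem_b, h2.2⟩

end Pool.Agent.Helper26.Vol5.PkCAN
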